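import Pool.Agent.W313.HB.Stm
import Pool.Agent.Helper923.HMertens

/-!
# HB-MERT, EULER, OMEGA
-/

set_option autoImplicit false
set_option linter.all false

namespace Pool.Agent.W74.HB

open Finset
open Pool.Agent.W313.HB

theorem mert_ : S_MERT := by
  obtain ⟨C, hC⟩ := Pool.Agent.Helper923.HMertens.mertens_log
  refine ⟨|C|, abs_nonneg _, fun x hx => ?_⟩
  have h1 := (abs_le.1 (hC x hx)).2
  have h2 := le_abs_self C
  linarith

theorem sum_inv : ∃ C : ℝ, 0 ≤ C ∧ ∀ x : ℕ, 2 ≤ x →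
    ∑ p ∈ (Icc 1 x).filter Nat.Prime, 1 / (p : ℝ) ≤ Real.log (Real.log x) + C := by
  obtain ⟨C, hC0, hC⟩ := Pool.Agent.Helper923.HMertens.mertens_ratio
  have hl2 : 0 < Real.log 2 := Real.log_pos (by norm_num)
  refine ⟨C / Real.log 2 + |Real.log (Real.log 2)| + 1 / 2, by positivity, fun x hx => ?_⟩
  have h1 := (abs_le.1 (hC 2 x le_rfl hx)).2
  have h2 : (Icc 1 x).filter Nat.Prime = insert 2 ((Ioc 2 x).filter Nat.Prime) := by
    ext p
    simp only [mem_filter, mem_Icc, mem_insert, mem_Ioc]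
    constructor
    · rintro ⟨⟨h3, h4⟩, h5⟩
      rcases Nat.lt_or_ge 2 p with h | h
      · exact Or.inr ⟨⟨h, h4⟩, h5⟩
      · exact Or.inl (le_antisymm h h5.two_le)
    · rintro (rfl | ⟨⟨h3, h4⟩, h5⟩)
      · exact ⟨⟨by norm_num, hx⟩, Nat.prime_two⟩
      · exact ⟨⟨by omega, h4⟩, h5⟩
  have h3 : (2 : ℕ) ∉ (Ioc 2 x).filter Nat.Prime := by simp
  rw [h2, sum_insert h3]
  have hlx : 0 < Real.log x := Real.log_pos (by exact_mod_cast (by omega : 1 < x))
  rw [Nat.cast_ofNat, Real.log_div hlx.ne' hl2.ne'] at h1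
  have h4 := neg_abs_le (Real.log (Real.log 2))
  push_cast
  linarith

theorem euler_ (h : S_MERT) : S_EULER := by
  obtain ⟨C, hC0, hC⟩ := sum_inv
  refine ⟨Real.exp C, (Real.exp_pos C).le, fun x hx => ?_⟩
  have hlx : 0 ≤ Real.log x := Real.log_natCast_nonneg x
  have hexp : 1 ≤ Real.exp C := Real.one_le_exp hC0
  rcases Nat.lt_or_ge x 2 with h2 | h2
  · have hx1 : x = 1 := by omega
    subst hx1
    have h3 : (Icc 1 1).filter Nat.Prime = ∅ := by
      ext p
      simp only [mem_filter, mem_Icc, notMem_empty, iff_false, not_and]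
      rintro ⟨h3, h4⟩ h5
      have := h5.two_le
      omega
    rw [h3, prod_empty]
    nlinarith
  · have hlx' : 0 < Real.log x := Real.log_pos (by exact_mod_cast (by omega : 1 < x))
    calc ∏ p ∈ (Icc 1 x).filter Nat.Prime, (1 + 1 / (p : ℝ))
        ≤ ∏ p ∈ (Icc 1 x).filter Nat.Prime, Real.exp (1 / (p : ℝ)) := by
          refine prod_le_prod (fun p _ => by positivity) fun p _ => ?_
          rw [add_comm]
          exact Real.add_one_le_exp _
      _ = Real.exp (∑ p ∈ (Icc 1 x).filter Nat.Prime, 1 / (p : ℝ)) := (Real.exp_sum _ _).symm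
      _ ≤ Real.exp (Real.log (Real.log x) + C) := Real.exp_le_exp.2 (hC x h2)
      _ = Real.exp C * Real.log x := by rw [Real.exp_add, Real.exp_log hlx', mul_comm]
      _ ≤ Real.exp C * (1 + Real.log x) := by
          refine mul_le_mul_of_nonneg_left (by linarith) (Real.exp_pos C).le

theorem sum_omega (A : ℕ) : ∑ a ∈ Icc 1 A, (a.primeFactors.card : ℝ) ≤
    A * ∑ p ∈ (Icc 1 A).filter Nat.Prime, 1 / (p : ℝ) := by
  have h1 : ∀ a ∈ Icc 1 A, (a.primeFactors.card : ℝ) =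
      ∑ p ∈ (Icc 1 A).filter Nat.Prime, if p ∣ a then (1 : ℝ) else 0 := by
    intro a ha
    rw [mem_Icc] at ha
    rw [← sum_filter, sum_const, nsmul_eq_mul, mul_one]
    congr 2
    ext p
    simp only [mem_filter, mem_Icc, Nat.mem_primeFactors]
    constructor
    · rintro ⟨h2, h3, h4⟩
      exact ⟨⟨⟨h2.one_le, (Nat.le_of_dvd (by omega) h3).trans ha.2⟩, h2⟩, h3⟩
    · rintro ⟨⟨h2, h3⟩, h4⟩
      exact ⟨h3, h4, by omega⟩
  rw [sum_congr rfl h1, sum_comm, mul_sum]
  refine sum_le_sum fun p hp => ?_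
  rw [mem_filter, mem_Icc] at hp
  have hp0 : (0 : ℝ) < p := by exact_mod_cast hp.2.pos
  rw [← sum_filter, sum_const, nsmul_eq_mul, mul_one, mul_one_div, le_div_iff₀ hp0]
  have h2 : ((Icc 1 A).filter fun a => p ∣ a).card = A / p := by
    have := Nat.Ioc_filter_dvd_card_eq_div A p
    rw [← this]
    rfl
  rw [h2]
  exact_mod_cast Nat.div_mul_le_self A p

theorem omega_ (h : S_EULER) : S_OMEGA := by
  obtain ⟨C, hC0, hC⟩ := sum_inv
  intro ε hε
  -- a threshold
  have hlim : Filter.Tendsto (fun A : ℕ => Real.log (Real.log A)) Filter.atTop Filter.atTop :=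
    Real.tendsto_log_atTop.comp (Real.tendsto_log_atTop.comp tendsto_natCast_atTop_atTop)
  obtain ⟨A0, hA0⟩ := Filter.eventually_atTop.1
    (hlim.eventually (Filter.eventually_ge_atTop (max 1 C)))
  refine ⟨2 / ε + 1, max A0 2, by
    have : 0 < 2 / ε := by positivity
    linarith, fun A hA => ?_⟩
  have h1 := hA0 A ((le_max_left _ _).trans hA)
  have h2 : 2 ≤ A := (le_max_right _ _).trans hA
  set L := Real.log (Real.log A) with hL
  have hL1 : 1 ≤ L := (le_max_left _ _).trans h1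
  have hLC : C ≤ L := (le_max_right _ _).trans h1
  have h3 := hC A h2
  have h4 := sum_omega A
  set S := (Icc 1 A).filter (fun a : ℕ => (2 / ε + 1) * L < (a.primeFactors.card : ℝ)) with hS
  have h5 : (S.card : ℝ) * ((2 / ε + 1) * L) ≤ ∑ a ∈ Icc 1 A, (a.primeFactors.card : ℝ) := by
    calc (S.card : ℝ) * ((2 / ε + 1) * L) = ∑ a ∈ S, (2 / ε + 1) * L := by
          rw [sum_const, nsmul_eq_mul]
      _ ≤ ∑ a ∈ S, (a.primeFactors.card : ℝ) := by
          refine sum_le_sum fun a ha => ?_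
          rw [hS, mem_filter] at ha
          exact ha.2.le
      _ ≤ ∑ a ∈ Icc 1 A, (a.primeFactors.card : ℝ) :=
          sum_le_sum_of_subset_of_nonneg (filter_subset _ _) fun _ _ _ => Nat.cast_nonneg _
  have hA' : (0 : ℝ) ≤ A := Nat.cast_nonneg A
  have h6 : (A : ℝ) * ∑ p ∈ (Icc 1 A).filter Nat.Prime, 1 / (p : ℝ) ≤ A * (2 * L) :=
    mul_le_mul_of_nonneg_left (by linarith) hA'
  have h7 : (S.card : ℝ) * ((2 / ε) * L) ≤ A * (2 * L) := by
    have h8 : (S.card : ℝ) * ((2 / ε) * L) ≤ (S.card : ℝ) * ((2 / ε + 1) * L) := by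
      refine mul_le_mul_of_nonneg_left ?_ (Nat.cast_nonneg _)
      nlinarith
    linarith
  have hL0 : 0 < L := by linarith
  have h8 : (S.card : ℝ) * (2 / ε) ≤ A * 2 := by
    have h9 : (S.card : ℝ) * (2 / ε) * L ≤ A * 2 * L := by linarith
    exact le_of_mul_le_mul_right h9 hL0
  have h9 : (S.card : ℝ) * 2 ≤ A * 2 * ε := by
    have h10 : (S.card : ℝ) * (2 / ε) = (S.card : ℝ) * 2 / ε := by ring
    rw [h10, div_le_iff₀ hε] at h8
    exact h8
  linarith

end Pool.Agent.W74.HB
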